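import Pool.Agent.Helper48.PS.Emb

/-!
# Productively Scheepers sets of reals need not be productively Menger

`IsMenger Z`: for every sequence of open covers `U n` of the space `Z` there are finite subfamilies
`F n` of `U n` which together cover `Z`.

`IsScheepers Z`: for every sequence of open covers `U n` of `Z` there are finite subfamilies `F n`
of `U n` such that every finite subset of `Z` is contained in the union of some `F n`.

`ProductivelyMenger X`, for a set of reals `X`: the product `X × Y`, a subspace of the plane, is
Menger for every Menger set of reals `Y`; similarly `ProductivelyScheepers X`.

The continuum hypothesis implies that there is a set of reals which is productively Scheepers but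
not productively Menger. Hence this is consistent with ZFC.

Idea. By recursion of length `ω₁` one constructs infinite sets `w a` of natural numbers and
functions `h a` with `w a ∩ [i, h a i) ≠ ∅` for all `i`, such that for each scale `g` and all large
`b < a` no interval `[k, g k)`, `k` large, meets both `w a` and `w b`. The set `X` consists of the
points `w a` and of the finite sets. By the last property and a pressing-down argument for finite
sets the product with a Scheepers set is Scheepers. The function `h a` is generic over the `a`-th
countable stage only with respect to finite contents which are far from the earlier sets `w b`;
this is enough for the set `M` of all `h a` to be Menger. The closed subset of all `(x, h)` in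
`X × M` such that `x` meets `[i, h i)` for all `i` projects onto a non-Menger set.
-/

set_option autoImplicit false

namespace Pool.Agent.Results.MP_42532c_gt.ProductivelyScheepers

open Pool.Agent.Helper48.PS

/-- Under the continuum hypothesis there is a set of reals which is productively Scheepers but not
productively Menger. -/
theorem result (ch : (Cardinal.aleph 1 : Cardinal.{0}) = Cardinal.continuum) :
    ∃ X : Set ℝ, ProductivelyScheepers X ∧ ¬ ProductivelyMenger X :=
  main ch

end Pool.Agent.Results.MP_42532c_gt.ProductivelyScheepers
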