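import Pool.Agent.SigF.Asm
import Pool.Agent.SigF.Sane

/-!
MP_42532c, question Q1: it is consistent with ZFC that some set of reals is productively Scheepers
but not productively Menger.

`theta B` (file `Pool/Agent/SigF/Stmt.lean`) is defined for every complete Boolean algebra `B`: it
is the truth value in `B` of the statement that some set of reals is productively Scheepers but not
productively Menger, in the Boolean-valued third-order arithmetic of D. Scott.  That is: a subset
of `T` of the extension is a map from `T` to `B`; a set of such objects is a map to `B` which
respects Boolean-valued equality.  Real numbers are Dedekind cuts, so the sets of reals `X` and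
`Y`, the covers and the finite subcovers are arbitrary elements of the extension.

The first part says that for the two-element algebra `Prop` this is the statement of the problem.
The second part says that in the algebra of the regular open subsets of `Br (Set ℕ)` the truth
value is the largest element.  `Br (Set ℕ)` is the space of all functions from `ω₁` to the power
set of `ℕ`; its basic open sets are given by the countable initial segments of a function.

No axiom beyond ZFC is used: the continuum hypothesis is not assumed.
-/

namespace Pool.Agent.Results.MP_42532c_gt.Question1

open Pool.Agent.SigF Pool.Agent.Fo65 Pool.Agent.Helper48.PS

theorem result :
    (theta Prop ↔ ∃ X : Set ℝ, ProductivelyScheepers X ∧ ¬ ProductivelyMenger X) ∧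
    Nontrivial (RO (Br (Set ℕ))) ∧ theta (RO (Br (Set ℕ))) = ⊤ :=
  ⟨theta_prop, inferInstance, theta_BB⟩

end Pool.Agent.Results.MP_42532c_gt.Question1
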